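import Pool.Agent.N71.BI.Stm

/-!
# Project BI: `t_RSUM : E_RSUM`
-/

set_option autoImplicit false

namespace Pool.Agent.N905.BI

open Finset Filter NumberField Pool.Agent.H38R2.CG
open scoped Classical

lemma phi_le_one' (t : ℝ) : phi t ≤ 1 := by
  unfold phi
  refine max_le zero_le_one ?_
  have := abs_nonneg t
  linarith

lemma phi_nonneg' (t : ℝ) : 0 ≤ phi t := le_max_left _ _

/-- The key estimate for a solution in the window. -/
lemma key {D : ℕ} (hD : 1 < D) {u v n : ℤ} (hu : 0 < u) (hn : 0 < n)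
    (h : u ^ 2 - (D : ℤ) * v ^ 2 = 4 * n)
    (hp : phi (Real.log (((u : ℝ) + v * √(D : ℝ)) / ((u : ℝ) - v * √(D : ℝ)))) ≠ 0) :
    3 * u ^ 2 ≤ 16 * n ∧ 3 * ((D : ℤ) * v ^ 2) ≤ 4 * n := by
  set s : ℝ := √(D : ℝ) with hs
  have hs0 : 0 < s := Real.sqrt_pos.mpr (by positivity)
  have hss : s ^ 2 = D := Real.sq_sqrt (by positivity)
  have huR : (0 : ℝ) < u := by exact_mod_cast hu
  have hnR : (0 : ℝ) < n := by exact_mod_cast hn
  have hR : (u : ℝ) ^ 2 - (D : ℝ) * (v : ℝ) ^ 2 = 4 * n := by exact_mod_cast h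
  have hprod : ((u : ℝ) + v * s) * ((u : ℝ) - v * s) = 4 * n := by
    rw [← hR, ← hss]; ring
  have hpos : 0 < ((u : ℝ) + v * s) * ((u : ℝ) - v * s) := by rw [hprod]; positivity
  have h12 : 0 < (u : ℝ) + v * s ∧ 0 < (u : ℝ) - v * s := by
    rcases pos_and_pos_or_neg_and_neg_of_mul_pos hpos with h1 | h1
    · exact h1
    · exfalso; linarith [h1.1, h1.2]
  obtain ⟨h1, h2⟩ := h12
  set r : ℝ := ((u : ℝ) + v * s) / ((u : ℝ) - v * s) with hr
  have hr0 : 0 < r := div_pos h1 h2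
  have hlog : |Real.log r| < 1 := by
    by_contra hc
    push Not at hc
    apply hp
    unfold phi
    exact max_eq_left (by linarith)
  have he : Real.exp 1 < 3 := by
    have := Real.exp_one_lt_d9
    linarith
  have hup : r < 3 := by
    have : Real.log r < 1 := (abs_lt.mp hlog).2
    have := (Real.log_lt_iff_lt_exp hr0).mp this
    linarith
  have hlo : 1 < 3 * r := by
    have h3 : -1 < Real.log r := (abs_lt.mp hlog).1
    have h4 : Real.exp (-1) < r := (Real.lt_log_iff_exp_lt hr0).mp h3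
    have h5 : Real.exp (-1) * Real.exp 1 = 1 := by rw [← Real.exp_add]; simp
    have h6 : 0 < Real.exp (-1) := Real.exp_pos _
    nlinarith
  have hA : (u : ℝ) + v * s < 3 * ((u : ℝ) - v * s) := by
    rw [hr, div_lt_iff₀ h2] at hup
    exact hup
  have hB : (u : ℝ) - v * s < 3 * ((u : ℝ) + v * s) := by
    have : 1 < 3 * (((u : ℝ) + v * s) / ((u : ℝ) - v * s)) := hlo
    rw [← mul_div_assoc, one_lt_div h2] at this
    exact this
  have hC : |(v : ℝ) * s| ≤ u / 2 := by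
    rw [abs_le]; constructor <;> linarith
  have hD2 : ((v : ℝ) * s) ^ 2 ≤ (u / 2 : ℝ) ^ 2 := by
    rw [← sq_abs ((v : ℝ) * s)]
    exact pow_le_pow_left₀ (abs_nonneg _) hC 2
  have hD3 : (D : ℝ) * (v : ℝ) ^ 2 ≤ (u : ℝ) ^ 2 / 4 := by
    rw [← hss]; nlinarith
  constructor
  · have : 3 * (u : ℝ) ^ 2 ≤ 16 * n := by linarith
    exact_mod_cast this
  · have : 3 * ((D : ℝ) * (v : ℝ) ^ 2) ≤ 4 * n := by linarith
    exact_mod_cast this

theorem t_RSUM : Pool.Agent.N71.BI.E_RSUM := by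
  refine ⟨9, by norm_num, ?_⟩
  intro D N hD hN
  set U : Finset ℕ := Finset.Icc 1 (Nat.sqrt (6 * N)) with hU
  set m : ℕ := Nat.sqrt (2 * N / D) with hm
  set V : Finset ℤ := Finset.Icc (-(m : ℤ)) m with hV
  -- membership
  have hmem : ∀ n ∈ Finset.Icc 1 N, ∀ u : ℕ, ∀ v : ℤ, 1 ≤ u →
      ((u : ℤ) ^ 2 - (D : ℤ) * v ^ 2 = 4 * n) →
      phi (Real.log (((u : ℝ) + v * √(D : ℝ)) / ((u : ℝ) - v * √(D : ℝ)))) ≠ 0 →
      u ∈ U ∧ v ∈ V := by
    intro n hn u v hu h hp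
    rw [Finset.mem_Icc] at hn
    have hp' : phi (Real.log ((((u : ℤ) : ℝ) + v * √(D : ℝ)) / (((u : ℤ) : ℝ) - v * √(D : ℝ)))) ≠ 0 := by
      simpa using hp
    obtain ⟨k1, k2⟩ := key hD (u := (u : ℤ)) (v := v) (n := (n : ℤ)) (by omega) (by omega) h hp'
    have hnN : (n : ℤ) ≤ N := by exact_mod_cast hn.2
    constructor
    · rw [hU, Finset.mem_Icc]
      refine ⟨hu, ?_⟩
      rw [Nat.le_sqrt]
      have : (u : ℤ) * u ≤ 6 * N := by nlinarith
      exact_mod_cast this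
    · have hv2 : (v.natAbs) ≤ m := by
        rw [hm, Nat.le_sqrt, Nat.le_div_iff_mul_le (by omega)]
        have e1 : ((v.natAbs * v.natAbs : ℕ) : ℤ) = v ^ 2 := by
          rw [Int.natCast_mul, ← sq]
          exact Int.natAbs_sq v
        have : ((v.natAbs * v.natAbs * D : ℕ) : ℤ) ≤ ((2 * N : ℕ) : ℤ) := by
          rw [Nat.cast_mul, e1]
          push_cast
          nlinarith
        exact_mod_cast this
      rw [hV, Finset.mem_Icc]
      omega
  have h1 : ∀ n ∈ Finset.Icc 1 N, Rsum D n ≤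
      ∑ u ∈ U, ∑ v ∈ V, (if (u : ℤ) ^ 2 - (D : ℤ) * v ^ 2 = 4 * n then (1 : ℝ) else 0) := by
    intro n hn
    unfold Rsum
    have e1 : ∑ u ∈ Finset.Icc 1 (4 * n), ∑ v ∈ Finset.Icc (-(4 * n : ℤ)) (4 * n),
        (if ((u : ℤ) ^ 2 - (D : ℤ) * v ^ 2 = 4 * n) then
          phi (Real.log (((u : ℝ) + v * √(D : ℝ)) / ((u : ℝ) - v * √(D : ℝ)))) else 0) ≤
        ∑ p ∈ (Finset.Icc 1 (4 * n)) ×ˢ (Finset.Icc (-(4 * n : ℤ)) (4 * n)),
          (if p ∈ U ×ˢ V ∧ ((p.1 : ℤ) ^ 2 - (D : ℤ) * p.2 ^ 2 = 4 * n) then (1 : ℝ) else 0) := by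
      rw [Finset.sum_product]
      refine Finset.sum_le_sum fun u hu => Finset.sum_le_sum fun v _ => ?_
      rw [Finset.mem_Icc] at hu
      by_cases h : ((u : ℤ) ^ 2 - (D : ℤ) * v ^ 2 = 4 * n)
      · rw [if_pos h]
        by_cases hp : phi (Real.log (((u : ℝ) + v * √(D : ℝ)) / ((u : ℝ) - v * √(D : ℝ)))) = 0
        · rw [hp]; split_ifs <;> norm_num
        · have := hmem n hn u v hu.1 h hp
          rw [if_pos ⟨Finset.mem_product.mpr this, h⟩]
          exact phi_le_one' _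
      · rw [if_neg h, if_neg (fun hh => h hh.2)]
    refine e1.trans ?_
    rw [← Finset.sum_product']
    rw [← Finset.sum_filter, ← Finset.sum_filter]
    refine Finset.sum_le_sum_of_subset_of_nonneg ?_ (fun _ _ _ => zero_le_one)
    intro p hp
    rw [Finset.mem_filter] at hp ⊢
    exact ⟨hp.2.1, hp.2.2⟩
  have h2 : ∑ n ∈ Finset.Icc 1 N, Rsum D n ≤ ∑ u ∈ U, ∑ v ∈ V, (1 : ℝ) := by
    refine (Finset.sum_le_sum h1).trans ?_
    rw [Finset.sum_comm]
    refine Finset.sum_le_sum fun u _ => ?_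
    rw [Finset.sum_comm]
    refine Finset.sum_le_sum fun v _ => ?_
    rw [← Finset.sum_filter, Finset.sum_const, nsmul_eq_mul, mul_one]
    have : ((Finset.Icc 1 N).filter (fun n : ℕ => (u : ℤ) ^ 2 - (D : ℤ) * v ^ 2 = 4 * n)).card ≤ 1 := by
      rw [Finset.card_le_one]
      intro a ha b hb
      rw [Finset.mem_filter] at ha hb
      have := ha.2.symm.trans hb.2
      omega
    exact_mod_cast this
  refine h2.trans ?_
  have hcardV : (V.card : ℝ) = 2 * m + 1 := by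
    rw [hV, Int.card_Icc]
    have : (m : ℤ) + 1 - -(m : ℤ) = ((2 * m + 1 : ℕ) : ℤ) := by push_cast; ring
    rw [this, Int.toNat_natCast]; push_cast; ring
  have hcardU : (U.card : ℝ) = Nat.sqrt (6 * N) := by
    rw [hU, Nat.card_Icc]; simp
  rw [Finset.sum_const, Finset.sum_const, nsmul_eq_mul, nsmul_eq_mul, mul_one, hcardV, hcardU]
  have hDr : (1 : ℝ) < D := by exact_mod_cast hD
  have hNr : (1 : ℝ) ≤ N := by exact_mod_cast hN
  have hsN : 0 < √(N : ℝ) := Real.sqrt_pos.mpr (by positivity)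
  have hsD : 0 < √(D : ℝ) := Real.sqrt_pos.mpr (by positivity)
  have b1 : ((Nat.sqrt (6 * N) : ℕ) : ℝ) ≤ 3 * √(N : ℝ) := by
    have : ((Nat.sqrt (6 * N) : ℕ) : ℝ) ≤ √((6 * N : ℕ) : ℝ) := Real.nat_sqrt_le_real_sqrt
    refine this.trans ?_
    rw [Real.sqrt_le_left (by positivity), mul_pow, Real.sq_sqrt (by positivity)]
    push_cast; nlinarith
  have b2 : (m : ℝ) ≤ 3 / 2 * (√(N : ℝ) / √(D : ℝ)) := by
    have h0 : (m : ℝ) ≤ √((2 * N / D : ℕ) : ℝ) := Real.nat_sqrt_le_real_sqrt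
    have h00 : (((2 * N / D : ℕ)) : ℝ) ≤ 2 * N / D := by
      have := @Nat.cast_div_le ℝ _ _ _ (2 * N) D
      refine this.trans (by push_cast; exact le_refl _)
    refine h0.trans ?_
    rw [Real.sqrt_le_left (by positivity)]
    refine h00.trans ?_
    have e2 : (3 / 2 * (√(N : ℝ) / √(D : ℝ))) ^ 2 = 9 / 4 * ((N : ℝ) / D) := by
      rw [mul_pow, div_pow (√(N : ℝ)), Real.sq_sqrt (by positivity), Real.sq_sqrt (by positivity)]
      norm_num
    rw [e2, mul_div_assoc]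
    have : (0 : ℝ) ≤ (N : ℝ) / D := by positivity
    nlinarith
  calc ((Nat.sqrt (6 * N) : ℕ) : ℝ) * (2 * (m : ℝ) + 1)
      ≤ (3 * √(N : ℝ)) * (2 * (3 / 2 * (√(N : ℝ) / √(D : ℝ))) + 1) := by
        gcongr
    _ = 9 * ((√(N : ℝ)) ^ 2 / √(D : ℝ)) + 3 * √(N : ℝ) := by ring
    _ = 9 * (N / √(D : ℝ)) + 3 * √(N : ℝ) := by rw [Real.sq_sqrt (by positivity)]
    _ ≤ 9 * (√(N : ℝ) + N / √(D : ℝ)) := by nlinarith

end Pool.Agent.N905.BI
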